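import Pool.Agent.H802R3.Vas.Final3

/-!
# MP_6391b1_gt, Q2: Dasbach's formula for `F_3` is false

`β_{23,20} ≥ 39`, while the coefficient of `t^20` in the conjectured rational function is `38`.
-/

set_option autoImplicit false

namespace Pool.Agent.Results.MP_6391b1_gt.DasbachFalse

open Pool.Agent.H802R3.Vas PowerSeries

/-- Dasbach's formula
`F_3(t) = (1+t^2+t^8-t^10) / ((1-t^2)(1-t^4)(1-t^6)(1-t^10))` is false. Its coefficient of `t^20`
is `38`, but `β_{23,20} ≥ 39`. -/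
theorem result :
    39 ≤ beta 23 20 ∧
    coeff 20 ((1 + X ^ 2 + X ^ 8 - X ^ 10) *
      ((1 - X ^ 2) * (1 - X ^ 4) * (1 - X ^ 6) * (1 - X ^ 10))⁻¹ : PowerSeries ℚ) = 38 ∧
    F 3 ≠ (1 + X ^ 2 + X ^ 8 - X ^ 10) *
      ((1 - X ^ 2) * (1 - X ^ 4) * (1 - X ^ 6) * (1 - X ^ 10))⁻¹ :=
  ⟨le_beta, coeff_dasbach, not_dasbach⟩

end Pool.Agent.Results.MP_6391b1_gt.DasbachFalse
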